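import Pool.Agent.Helper33.DP.Sheet

/-!
Row BETW (MP_fcb106_co): the new level between two levels.
-/

set_option autoImplicit false

namespace Pool.Agent.Helper57.PL

open Finset
open Pool.Agent.Helper33.DP

/-- an antichain with `w` elements, as a set -/
structure An (P : Set ℕ) (le : ℕ → ℕ → Prop) (w : ℕ) (S : Finset ℕ) : Prop where
  sub : ∀ a ∈ S, a ∈ P
  anti : ∀ a ∈ S, ∀ b ∈ S, le a b → a = b
  card : S.card = w

variable {P : Set ℕ} {le : ℕ → ℕ → Prop} {w : ℕ}

theorem An.cmp (hP : PO P le w) {S : Finset ℕ} (hS : An P le w S) {p : ℕ} (hp : p ∈ P) :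
    ∃ s ∈ S, le p s ∨ le s p := by
  by_contra hcon
  have h1 : ∀ s ∈ S, ¬ le p s ∧ ¬ le s p := by
    intro s hs
    constructor
    · exact fun h => hcon ⟨s, hs, Or.inl h⟩
    · exact fun h => hcon ⟨s, hs, Or.inr h⟩
  have hn : p ∉ S := fun h => (h1 p h).1 (hP.refl p hp)
  have h2 := hP.width (insert p S) (by
    intro a ha
    rcases Finset.mem_insert.mp ha with rfl | ha
    · exact hp
    · exact hS.sub a ha) (by
    intro a ha b hb hab
    rcases Finset.mem_insert.mp ha with e | ha
    · rcases Finset.mem_insert.mp hb with e' | hb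
      · exact absurd (e.trans e'.symm) hab
      · rw [e]
        exact (h1 b hb).1
    · rcases Finset.mem_insert.mp hb with e | hb
      · rw [e]
        exact (h1 a ha).2
      · exact fun h => hab (hS.anti a ha b hb h))
  rw [Finset.card_insert_of_notMem hn, hS.card] at h2
  omega

open Classical in
/-- the elements of `S` which are maximal for `le` -/
noncomputable def mx (le : ℕ → ℕ → Prop) (S : Finset ℕ) : Finset ℕ :=
  S.filter (fun x => ∀ y ∈ S, le x y → x = y)

theorem mem_mx {S : Finset ℕ} {x : ℕ} : x ∈ mx le S ↔ x ∈ S ∧ ∀ y ∈ S, le x y → x = y := by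
  classical
  simp [mx]

theorem PO.flip (hP : PO P le w) : PO P (fun a b => le b a) w :=
  ⟨fun a b h => (hP.sub b a h).symm, hP.refl, fun a b c h h' => hP.trans c b a h' h,
    fun a b h h' => hP.antisymm a b h' h, fun s hs h => hP.width s hs fun a ha b hb hab =>
      h b hb a ha (Ne.symm hab)⟩

theorem An.flip {S : Finset ℕ} (h : An P le w S) : An P (fun a b => le b a) w S :=
  ⟨h.sub, fun a ha b hb hab => (h.anti b hb a ha hab).symm, h.card⟩

/-- the maximal elements of the union of two large antichains -/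
theorem mx_card (hP : PO P le w) {S T : Finset ℕ} (hS : An P le w S) (hT : An P le w T) :
    An P le w (mx le (S ∪ T)) := by
  classical
  have key : ∀ {le' : ℕ → ℕ → Prop}, PO P le' w → (mx le' (S ∪ T)).card ≤ w := by
    intro le' hP'
    refine hP'.width _ ?_ ?_
    · intro a ha
      rcases Finset.mem_union.mp (mem_mx.mp ha).1 with h | h
      · exact hS.sub a h
      · exact hT.sub a h
    · intro a ha b hb hab h
      exact hab ((mem_mx.mp ha).2 b (mem_mx.mp hb).1 h)
  have k1 := key hP
  have k2 := key (PO.flip hP)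
  set J := mx le (S ∪ T) with hJ
  set K := mx (fun a b => le b a) (S ∪ T) with hK
  have hU : S ∪ T ⊆ J ∪ K := by
    intro x hx
    by_cases hj : x ∈ J
    · exact Finset.mem_union_left _ hj
    refine Finset.mem_union_right _ (mem_mx.mpr ⟨hx, ?_⟩)
    have hj' : ∃ y ∈ S ∪ T, le x y ∧ x ≠ y := by
      by_contra hc
      refine hj (mem_mx.mpr ⟨hx, fun y hy hxy => ?_⟩)
      by_contra hne
      exact hc ⟨y, hy, hxy, hne⟩
    obtain ⟨y, hy, hxy, hne⟩ := hj'
    intro z hz hzx
    by_contra hne2
    have hzx' : le z x := hzx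
    have hzy : le z y := hP.trans z x y hzx' hxy
    have hzy2 : z ≠ y := by
      rintro rfl
      exact hne (hP.antisymm x z hxy hzx')
    rcases Finset.mem_union.mp hx with h1 | h1
    · rcases Finset.mem_union.mp hy with h2 | h2
      · exact hne (hS.anti x h1 y h2 hxy)
      · rcases Finset.mem_union.mp hz with h3 | h3
        · exact hne2 (hS.anti z h3 x h1 hzx').symm
        · exact hzy2 (hT.anti z h3 y h2 hzy)
    · rcases Finset.mem_union.mp hy with h2 | h2
      · rcases Finset.mem_union.mp hz with h3 | h3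
        · exact hzy2 (hS.anti z h3 y h2 hzy)
        · exact hne2 (hT.anti z h3 x h1 hzx').symm
      · exact hne (hT.anti x h1 y h2 hxy)
  have hI : S ∩ T ⊆ J ∩ K := by
    intro x hx
    obtain ⟨h1, h2⟩ := Finset.mem_inter.mp hx
    have hu : x ∈ S ∪ T := Finset.mem_union_left _ h1
    refine Finset.mem_inter.mpr ⟨mem_mx.mpr ⟨hu, ?_⟩, mem_mx.mpr ⟨hu, ?_⟩⟩
    · intro y hy hxy
      rcases Finset.mem_union.mp hy with h | h
      · exact hS.anti x h1 y h hxy
      · exact hT.anti x h2 y h hxy
    · intro y hy hxy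
      rcases Finset.mem_union.mp hy with h | h
      · exact (hS.anti y h x h1 hxy).symm
      · exact (hT.anti y h x h2 hxy).symm
  have c1 := Finset.card_le_card hU
  have c2 := Finset.card_le_card hI
  have c3 := Finset.card_union_add_card_inter J K
  have c4 := Finset.card_union_add_card_inter S T
  have c5 := hS.card
  have c6 := hT.card
  refine ⟨?_, ?_, by omega⟩
  · intro a ha
    rcases Finset.mem_union.mp (mem_mx.mp ha).1 with h | h
    · exact hS.sub a h
    · exact hT.sub a h
  · intro a ha b hb h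
    exact (mem_mx.mp ha).2 b (mem_mx.mp hb).1 h

theorem mn_card (hP : PO P le w) {S T : Finset ℕ} (hS : An P le w S) (hT : An P le w T) :
    An P le w (mx (fun a b => le b a) (S ∪ T)) :=
  (mx_card (PO.flip hP) hS.flip hT.flip).flip

theorem anti_inj (hP : PO P le w) {X : Fin w → ℕ} (h : Anti P le X) : Function.Injective X := by
  intro i j hij
  by_contra hne
  refine h.2 i j hne ?_
  rw [← hij]
  exact hP.refl _ (h.1 i)

theorem an_of (hP : PO P le w) {X : Fin w → ℕ} (h : Anti P le X) :
    An P le w (univ.image X) := by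
  refine ⟨?_, ?_, ?_⟩
  · intro a ha
    obtain ⟨i, -, rfl⟩ := Finset.mem_image.mp ha
    exact h.1 i
  · intro a ha b hb hab
    obtain ⟨i, -, rfl⟩ := Finset.mem_image.mp ha
    obtain ⟨j, -, rfl⟩ := Finset.mem_image.mp hb
    by_contra hne
    exact h.2 i j (fun e => hne (by rw [e])) hab
  · rw [Finset.card_image_of_injective _ (anti_inj hP h), Finset.card_univ, Fintype.card_fin]

theorem of_an {S : Finset ℕ} (h : An P le w S) :
    ∃ X : Fin w → ℕ, Anti P le X ∧ ∀ x, x ∈ S ↔ ∃ i, X i = x := by
  refine ⟨fun i => S.orderEmbOfFin h.card i, ⟨fun i => h.sub _ (Finset.orderEmbOfFin_mem S h.card i),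
    ?_⟩, ?_⟩
  · intro i j hij hle
    have e := h.anti _ (Finset.orderEmbOfFin_mem S h.card i) _
      (Finset.orderEmbOfFin_mem S h.card j) hle
    exact hij ((S.orderEmbOfFin h.card).injective e)
  · intro x
    have hr := Finset.range_orderEmbOfFin S h.card
    constructor
    · intro hx
      have : x ∈ Set.range (S.orderEmbOfFin h.card) := by
        rw [hr]
        exact hx
      exact this
    · rintro ⟨i, rfl⟩
      exact Finset.orderEmbOfFin_mem S h.card i

/-- BETW -/
theorem BETW : ST_BETW := by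
  intro w P le L L' M n hP hL hL' hM hB ⟨i, hi⟩ ⟨a, ha⟩ ⟨b, hb⟩
  have aL := an_of hP hL
  have aL' := an_of hP hL'
  have aM := an_of hP hM
  have aJ := mx_card hP aM aL
  set sL := univ.image L with hsL
  set sL' := univ.image L' with hsL'
  set sM := univ.image M with hsM
  set J := mx le (sM ∪ sL) with hJ
  have aX := mn_card hP aJ aL'
  set X := mx (fun a b => le b a) (J ∪ sL') with hX
  have mL : ∀ i, L i ∈ sL := fun i => Finset.mem_image_of_mem _ (Finset.mem_univ _)
  have mL' : ∀ i, L' i ∈ sL' := fun i => Finset.mem_image_of_mem _ (Finset.mem_univ _)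
  have nM : n ∈ sM := by
    rw [← hi]
    exact Finset.mem_image_of_mem _ (Finset.mem_univ _)
  have nJ : n ∈ J := by
    refine mem_mx.mpr ⟨Finset.mem_union_left _ nM, ?_⟩
    intro y hy hny
    rcases Finset.mem_union.mp hy with h | h
    · exact aM.anti n nM y h hny
    · have e := aL.anti (L a) (mL a) y h (hP.trans _ _ _ ha hny)
      rw [e] at ha
      exact hP.antisymm _ _ hny ha
  have nX : n ∈ X := by
    refine mem_mx.mpr ⟨Finset.mem_union_left _ nJ, ?_⟩
    intro y hy hyn
    rcases Finset.mem_union.mp hy with h | h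
    · exact (aJ.anti y h n nJ hyn).symm
    · have e := aL'.anti y h (L' b) (mL' b) (hP.trans _ _ _ hyn hb)
      rw [← e] at hb
      exact hP.antisymm _ _ hb hyn
  obtain ⟨F, hF, hF2⟩ := of_an aX
  refine ⟨F, hF, (hF2 n).mp nX, ?_, ?_⟩
  · intro c
    obtain ⟨x, hx, h | h⟩ := aX.cmp hP (hL.1 c)
    · obtain ⟨j, hj⟩ := (hF2 x).mp hx
      exact ⟨j, by rw [hj]; exact h⟩
    · have hx2 := (mem_mx.mp hx).1
      obtain ⟨j, hj⟩ := (hF2 x).mp hx
      refine ⟨j, ?_⟩
      rw [hj]
      rcases Finset.mem_union.mp hx2 with h3 | h3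
      · have e := (mem_mx.mp h3).2 (L c) (Finset.mem_union_right _ (mL c)) h
        rw [e]
        exact hP.refl _ (hL.1 c)
      · obtain ⟨d, hd⟩ := hB c
        have e := aL'.anti x h3 (L' d) (mL' d) (hP.trans _ _ _ h hd)
        rw [e]
        exact hd
  · intro j
    obtain ⟨x, hx, h | h⟩ := aL'.cmp hP (hF.1 j)
    · obtain ⟨d, -, rfl⟩ := Finset.mem_image.mp hx
      exact ⟨d, h⟩
    · have hj : F j ∈ X := (hF2 _).mpr ⟨j, rfl⟩
      have e := (mem_mx.mp hj).2 x (Finset.mem_union_right _ hx) h
      obtain ⟨d, -, rfl⟩ := Finset.mem_image.mp hx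
      refine ⟨d, ?_⟩
      rw [← e]
      exact hP.refl _ (hF.1 j)

end Pool.Agent.Helper57.PL
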